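import Pool.Agent.Run7.h764.SMain5
set_option autoImplicit false

/-! Every nondegenerate configuration of `d + 1` points in `ℝ^d` has the large-dilates property
when `4 ≤ d`. -/

namespace Pool.Agent.Results.MP_339db4_co.SimplicesDimGeFour

open MeasureTheory Filter Topology Run7.h764.S
open scoped ENNReal

/-- The upper density of a set: the `limsup` as `T → ∞` of the proportion of the cube
`[-T, T]^d` that it fills. -/
noncomputable def upperDensity {d : ℕ} (A : Set (EuclideanSpace ℝ (Fin d))) : ℝ≥0∞ :=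
  Filter.limsup (fun T : ℝ =>
    volume (A ∩ {x : EuclideanSpace ℝ (Fin d) | ∀ i, |x i| ≤ T}) /
      volume {x : EuclideanSpace ℝ (Fin d) | ∀ i, |x i| ≤ T}) atTop

/-- The large-dilates property of a configuration. -/
def LargeDilates {d : ℕ} {ι : Type} (v : ι → EuclideanSpace ℝ (Fin d)) : Prop :=
  ∀ A : Set (EuclideanSpace ℝ (Fin d)), NullMeasurableSet A volume → 0 < upperDensity A →
    ∃ l0 : ℝ, 0 < l0 ∧ ∀ l : ℝ, l0 ≤ l →
      ∃ φ : EuclideanSpace ℝ (Fin d) ≃ᵢ EuclideanSpace ℝ (Fin d), ∀ j, φ (l • v j) ∈ A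

/-- positive upper density gives many dense cubes -/
lemma dense_cubes {d : ℕ} {A : Set (EuclideanSpace ℝ (Fin d))} (h : 0 < upperDensity A) :
    ∃ δ : ℝ, 0 < δ ∧ ∀ T0 : ℝ, ∃ T : ℝ, T0 ≤ T ∧
      δ * (2 * T) ^ d ≤ volume.real (A ∩ Qb d T) := by
  obtain ⟨c, hc0, hc⟩ := exists_between h
  have hctop : c ≠ ∞ := ne_top_of_lt hc
  have hfreq := Filter.frequently_lt_of_lt_limsup (f := atTop) (by isBoundedDefault) hc
  refine ⟨c.toReal, ENNReal.toReal_pos hc0.ne' hctop, fun T0 => ?_⟩
  obtain ⟨T, hT, hcT⟩ := (Filter.frequently_atTop.1 hfreq) (max T0 1)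
  have hT0 : 0 < T := lt_of_lt_of_le one_pos ((le_max_right _ _).trans hT)
  refine ⟨T, (le_max_left _ _).trans hT, ?_⟩
  have hvol := Qb_vol (d := d) hT0.le
  have hvpos : volume (Qb d T) ≠ 0 := by
    rw [hvol, Ne, ENNReal.ofReal_eq_zero, not_le]
    positivity
  have hvtop : volume (Qb d T) ≠ ∞ := by rw [hvol]; exact ENNReal.ofReal_ne_top
  have h1 : c < volume (A ∩ Qb d T) / volume (Qb d T) := hcT
  have h2 : c * volume (Qb d T) ≤ volume (A ∩ Qb d T) :=
    (ENNReal.le_div_iff_mul_le (Or.inl hvpos) (Or.inl hvtop)).1 h1.le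
  have h3 : volume (A ∩ Qb d T) ≠ ∞ := ne_top_of_le_ne_top hvtop (measure_mono Set.inter_subset_right)
  have h4 := ENNReal.toReal_mono h3 h2
  rw [ENNReal.toReal_mul, hvol, ENNReal.toReal_ofReal (by positivity)] at h4
  exact h4

/-- decay of the form of a configuration gives large dilates -/
lemma largeDilates_of_dec {d : ℕ} {ι : Type} [Fintype ι] [Nonempty ι]
    {v : ι → EuclideanSpace ℝ (Fin d)} (hv : Dec v) : LargeDilates v := by
  intro A hA hdens
  obtain ⟨A', hA'A, hA'm, hA'e⟩ := hA.exists_measurable_subset_ae_eq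
  have hdens' : 0 < upperDensity A' := by
    have : upperDensity A' = upperDensity A := by
      unfold upperDensity
      congr 1
      ext T
      congr 1
      exact measure_congr (hA'e.inter (Filter.EventuallyEq.refl _ _))
    rw [this]
    exact hdens
  obtain ⟨δ, hδ, hd⟩ := dense_cubes hdens'
  obtain ⟨l0, hl0, h⟩ := large_dilates hv hA'm hδ hd
  refine ⟨l0, hl0, fun l hl => ?_⟩
  have hb := h l hl
  unfold Bad at hb
  push Not at hb
  obtain ⟨U, x, hUx⟩ := hb
  refine ⟨(toLI U).toIsometryEquiv.trans (IsometryEquiv.addLeft x), fun j => hA'A ?_⟩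
  have e : ((toLI U).toIsometryEquiv.trans (IsometryEquiv.addLeft x)) (l • v j) =
      x + l • act U (v j) := by
    have : ((toLI U).toIsometryEquiv.trans (IsometryEquiv.addLeft x)) (l • v j) =
        x + act U (l • v j) := rfl
    rw [this, act_smul]
  rw [e]
  exact hUx j

/-- **Theorem.** Let `4 ≤ d` and let `v 0, ..., v d` be the vertices of a nondegenerate simplex
in `ℝ^d`. Then the configuration has the large-dilates property: a measurable set of positive
upper density contains a congruent copy of its dilate by `l` for every sufficiently large `l`. -/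
theorem result (d : ℕ) (hd : 4 ≤ d) (v : Fin (d + 1) → EuclideanSpace ℝ (Fin d))
    (hv : AffineIndependent ℝ v) : LargeDilates v :=
  largeDilates_of_dec (dec_simplex hd hv)

end Pool.Agent.Results.MP_339db4_co.SimplicesDimGeFour
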